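import Mathlib

/-!
# Randomly displaced primes: statements

Project DP (seat helper180). Every prime `p` is displaced to `p + p / (log p)^A * U p` with
independent `U p` uniform in `[0, 1]`. `S_X` is the statement of package `X`.
-/

set_option autoImplicit false

open MeasureTheory ProbabilityTheory Filter Topology

namespace Pool.Agent.U180.DP

/-! ### The model -/

/-- the size of the displacement of `p` -/
noncomputable def amp (A : ℝ) (p : ℕ) : ℝ := p / Real.log p ^ A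

/-- the displaced prime -/
noncomputable def dis {Ω : Type} (A : ℝ) (U : ℕ → Ω → ℝ) (p : ℕ) (ω : Ω) : ℝ :=
  p + amp A p * U p ω

/-- The `U p` are independent and uniform in `[0, 1]`. -/
structure IsUnif {Ω : Type} [MeasurableSpace Ω] (P : Measure Ω) (U : ℕ → Ω → ℝ) : Prop where
  prob : IsProbabilityMeasure P
  meas : ∀ p, Measurable (U p)
  indep : iIndepFun U P
  law : ∀ p, P.map (U p) = volume.restrict (Set.Icc 0 1)

/-- The event that there is no displaced prime in `(x, x + y]`. -/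
def void {Ω : Type} (A : ℝ) (U : ℕ → Ω → ℝ) (x y : ℝ) : Set Ω :=
  {ω | ∀ p : ℕ, p.Prime → ¬ (x < dis A U p ω ∧ dis A U p ω ≤ x + y)}

/-- The number of displaced primes in `(x, x + y]`. -/
noncomputable def cnt {Ω : Type} (A : ℝ) (U : ℕ → Ω → ℝ) (x y : ℝ) (ω : Ω) : ℕ :=
  {p : ℕ | p.Prime ∧ x < dis A U p ω ∧ dis A U p ω ≤ x + y}.ncard

/-! ### Primes -/

/-- Primes in intervals of length at least `x / (log x)^A`. -/
def S_PI : Prop := ∀ A ε : ℝ, 0 < A → 0 < ε → ∃ X₀ : ℝ, ∀ x z : ℝ, X₀ ≤ x →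
  x / Real.log x ^ A ≤ z → z ≤ x / 2 →
  |(((Finset.range (⌊x⌋₊ + 1)).filter fun p : ℕ => p.Prime ∧ x - z < p).card : ℝ) -
    z / Real.log x| ≤ ε * (z / Real.log x)

/-- The probability that the displaced prime `p` is in `(x, x + y]`. -/
noncomputable def prb (A x y : ℝ) (p : ℕ) : ℝ :=
  max 0 (min ((p : ℝ) + amp A p) (x + y) - max (p : ℝ) x) / amp A p

/-- the primes up to `t` -/
noncomputable def prm (t : ℝ) : Finset ℕ := (Finset.range (⌊t⌋₊ + 1)).filter Nat.Prime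

/-- The mean number of displaced primes in a short interval. -/
def S_DENS : Prop := ∀ A B ε : ℝ, 0 < A → 0 < B → 0 < ε → ∃ X₀ : ℝ, ∀ x y : ℝ, X₀ ≤ x → 0 < y →
  y ≤ Real.log x ^ B →
  |∑ p ∈ prm (x + y), prb A x y p - y / Real.log x| ≤ ε * (y / Real.log x) ∧
  ∀ p ∈ prm (x + y), 0 ≤ prb A x y p ∧ prb A x y p ≤ ε

/-- The mean number of displaced primes in intervals up to length `x`. -/
def S_MEAN : Prop := ∀ A ε : ℝ, 0 < A → 0 < ε → ∃ X₀ : ℝ, ∀ x y : ℝ, X₀ ≤ x → 0 < y → y ≤ x →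
  |∑ p ∈ prm (x + y), prb A x y p - y / Real.log x| ≤ ε * (y / Real.log x)

/-! ### Probability -/

/-- Laws and independence. -/
def S_LAW : Prop := ∀ (Ω : Type) [MeasurableSpace Ω] (P : Measure Ω) (A : ℝ) (U : ℕ → Ω → ℝ),
  IsUnif P U → 0 < A →
    (∀ x y, MeasurableSet (void A U x y)) ∧
    (∀ (x y : ℝ) (p : ℕ), p.Prime → 0 ≤ y →
      P.real {ω | x < dis A U p ω ∧ dis A U p ω ≤ x + y} = prb A x y p) ∧
    (∀ᵐ ω ∂P, ∀ p : ℕ, 0 ≤ U p ω ∧ U p ω ≤ 1) ∧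
    (∀ x y : ℝ, 0 ≤ x → 0 ≤ y → P.real (void A U x y) = ∏ p ∈ prm (x + y), (1 - prb A x y p)) ∧
    ∀ x y x' y' : ℝ, 0 ≤ x → 0 ≤ y → 0 ≤ y' → x + y ≤ x' →
      P.real (void A U x y ∩ void A U x' y') ≤ P.real (void A U x y) * P.real (void A U x' y')

/-- The probability of an empty window. -/
def S_VOID : Prop := ∀ A B ε : ℝ, 0 < A → 0 < B → 0 < ε → ∃ X₀ : ℝ,
  ∀ (Ω : Type) [MeasurableSpace Ω] (P : Measure Ω) (U : ℕ → Ω → ℝ), IsUnif P U →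
    ∀ x y : ℝ, X₀ ≤ x → 0 < y → y ≤ Real.log x ^ B →
      Real.exp (-((1 + ε) * y / Real.log x)) ≤ P.real (void A U x y) ∧
      P.real (void A U x y) ≤ Real.exp (-((1 - ε) * y / Real.log x))

/-- The second Borel-Cantelli lemma for negatively correlated events. -/
def S_BCN : Prop := ∀ (Ω : Type) [MeasurableSpace Ω] (P : Measure Ω), IsProbabilityMeasure P →
  ∀ E : ℕ → Set Ω, (∀ n, MeasurableSet (E n)) →
    (∀ n m, n < m → P.real (E n ∩ E m) ≤ P.real (E n) * P.real (E m)) →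
    ¬ Summable (fun n => P.real (E n)) → ∀ᵐ ω ∂P, ∃ᶠ n in atTop, ω ∈ E n

/-- The criterion: windows of a sequence, convergence. -/
def S_CONV : Prop := ∀ (Ω : Type) [MeasurableSpace Ω] (P : Measure Ω) (A B ε : ℝ)
  (U : ℕ → Ω → ℝ), IsUnif P U → 0 < A → 0 < B → 0 < ε → ∀ x y : ℕ → ℝ, Tendsto x atTop atTop →
    (∀ᶠ n in atTop, 0 < y n ∧ y n ≤ Real.log (x n) ^ B) →
    Summable (fun n => Real.exp (-((1 - ε) * y n / Real.log (x n)))) →
    ∀ᵐ ω ∂P, ∀ᶠ n in atTop, ω ∉ void A U (x n) (y n)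

/-- The criterion: disjoint windows of a sequence, divergence. -/
def S_DIV : Prop := ∀ (Ω : Type) [MeasurableSpace Ω] (P : Measure Ω) (A B ε : ℝ)
  (U : ℕ → Ω → ℝ), IsUnif P U → 0 < A → 0 < B → 0 < ε → ∀ x y : ℕ → ℝ, Tendsto x atTop atTop →
    (∀ᶠ n in atTop, 0 < y n ∧ y n ≤ Real.log (x n) ^ B ∧ x n + y n ≤ x (n + 1)) →
    ¬ Summable (fun n => Real.exp (-((1 + ε) * y n / Real.log (x n)))) →
    ∀ᵐ ω ∂P, ∃ᶠ n in atTop, ω ∈ void A U (x n) (y n)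

/-! ### The results -/

/-- Windows at all real numbers: the constant `1`. -/
def S_ALL : Prop := ∀ (Ω : Type) [MeasurableSpace Ω] (P : Measure Ω) (A : ℝ) (U : ℕ → Ω → ℝ),
  IsUnif P U → 0 < A → ∀ᵐ ω ∂P,
    (∀ c : ℝ, 1 < c → ∀ᶠ x : ℝ in atTop, ω ∉ void A U x (c * Real.log x ^ 2)) ∧
    ∀ c : ℝ, c < 1 → ∃ᶠ x : ℝ in atTop, ω ∈ void A U x (c * Real.log x ^ 2)

/-- Windows behind the squares: the constant `2`. -/
def S_SQ : Prop := ∀ (Ω : Type) [MeasurableSpace Ω] (P : Measure Ω) (A : ℝ) (U : ℕ → Ω → ℝ),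
  IsUnif P U → 0 < A → ∀ᵐ ω ∂P,
    (∀ c : ℝ, 2 < c → ∀ᶠ n : ℕ in atTop, ω ∉ void A U ((n : ℝ) ^ 2) (c * Real.log n ^ 2)) ∧
    ∀ c : ℝ, c < 2 → ∃ᶠ n : ℕ in atTop, ω ∈ void A U ((n : ℝ) ^ 2) (c * Real.log n ^ 2)

/-- Windows behind the powers of `b`: the constant `log b`. -/
def S_POW : Prop := ∀ (Ω : Type) [MeasurableSpace Ω] (P : Measure Ω) (A : ℝ) (U : ℕ → Ω → ℝ),
  IsUnif P U → 0 < A → ∀ᵐ ω ∂P, ∀ b : ℕ, 2 ≤ b →
    (∀ c : ℝ, Real.log b < c →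
      ∀ᶠ n : ℕ in atTop, ω ∉ void A U ((b : ℝ) ^ n) (c * (n * Real.log n))) ∧
    ∀ c : ℝ, c < Real.log b →
      ∃ᶠ n : ℕ in atTop, ω ∈ void A U ((b : ℝ) ^ n) (c * (n * Real.log n))

/-- The number of displaced primes in all intervals longer than `K (log x)^2`. -/
def S_UNI : Prop := ∀ (Ω : Type) [MeasurableSpace Ω] (P : Measure Ω) (A : ℝ) (U : ℕ → Ω → ℝ),
  IsUnif P U → 0 < A → ∀ ε : ℝ, 0 < ε → ∃ K : ℝ, 0 < K ∧ ∀ᵐ ω ∂P, ∀ᶠ x : ℝ in atTop, ∀ y : ℝ,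
    K * Real.log x ^ 2 ≤ y → y ≤ x →
      |(cnt A U x y ω : ℝ) * Real.log x / y - 1| ≤ ε

end Pool.Agent.U180.DP
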