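import Mathlib
import Pool.Agent.U180.DP.Stm

/-!
# Randomly displaced primes: the second order term of the maximal gaps

Project DP, second part (seat helper180). Statements.
-/

set_option autoImplicit false

open MeasureTheory ProbabilityTheory Filter Topology

namespace Pool.Agent.U180.DP

/-- `log log log x` -/
noncomputable def l3 (x : ℝ) : ℝ := Real.log (Real.log (Real.log x))

/-- `a` and `b` are consecutive displaced primes. -/
def IsGap {Ω : Type} (A : ℝ) (U : ℕ → Ω → ℝ) (ω : Ω) (a b : ℝ) : Prop :=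
  (∃ p : ℕ, p.Prime ∧ dis A U p ω = a) ∧ (∃ p : ℕ, p.Prime ∧ dis A U p ω = b) ∧ a < b ∧
    ∀ p : ℕ, p.Prime → dis A U p ω ≤ a ∨ b ≤ dis A U p ω

/-- The mean number of displaced primes in a short interval, precise form. -/
def S_PREC : Prop := ∀ A ε : ℝ, 1 < A → 0 < ε → ∃ X₀ : ℝ, ∀ x y : ℝ, X₀ ≤ x → 0 < y →
  y ≤ Real.log x ^ 3 →
  |∑ p ∈ prm (x + y), prb A x y p - y / Real.log x| ≤ ε * (y / Real.log x ^ 2) ∧
  ∀ p ∈ prm (x + y), 0 ≤ prb A x y p ∧ prb A x y p ≤ 1 / Real.log x ^ 4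

/-- The probability of an empty window up to a factor close to one. -/
def S_VOID2 : Prop := ∀ A ε : ℝ, 1 < A → 0 < ε → ∃ X₀ : ℝ,
  ∀ (Ω : Type) [MeasurableSpace Ω] (P : Measure Ω) (U : ℕ → Ω → ℝ), IsUnif P U →
    ∀ x y : ℝ, X₀ ≤ x → 0 < y → y ≤ 2 * Real.log x ^ 2 →
      (1 - ε) * Real.exp (-(y / Real.log x)) ≤ P.real (void A U x y) ∧
      P.real (void A U x y) ≤ (1 + ε) * Real.exp (-(y / Real.log x))

/-- The event that there is a displaced prime in `(x - 1, x]`, but none in `(x, x + y]`. -/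
def start {Ω : Type} (A : ℝ) (U : ℕ → Ω → ℝ) (x y : ℝ) : Set Ω :=
  void A U x y \ void A U (x - 1) 1

/-- The probability of the event `start`. -/
def S_START : Prop := ∀ A ε : ℝ, 1 < A → 0 < ε → ∃ X₀ : ℝ,
  ∀ (Ω : Type) [MeasurableSpace Ω] (P : Measure Ω) (U : ℕ → Ω → ℝ), IsUnif P U →
    ∀ x y : ℝ, X₀ ≤ x → 0 < y → y ≤ 2 * Real.log x ^ 2 →
      (1 - ε) / Real.log x * Real.exp (-(y / Real.log x)) ≤ P.real (start A U x y) ∧
      P.real (start A U x y) ≤ (1 + ε) / Real.log x * Real.exp (-(y / Real.log x))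

/-- Correlations of the events `start` with disjoint windows. -/
def S_PAIR2 : Prop := ∀ A ε : ℝ, 1 < A → 0 < ε → ∃ X₀ : ℝ,
  ∀ (Ω : Type) [MeasurableSpace Ω] (P : Measure Ω) (U : ℕ → Ω → ℝ), IsUnif P U →
    ∀ x y x' y' : ℝ, X₀ ≤ x → 0 < y → y ≤ 2 * Real.log x ^ 2 → x + y + 1 ≤ x' → 0 < y' →
      y' ≤ 2 * Real.log x' ^ 2 →
      P.real (start A U x y ∩ start A U x' y') ≤
        (1 + ε) * (P.real (start A U x y) * P.real (start A U x' y'))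

/-- A form of the Kochen-Stone lemma: `E n` and `E m` are nearly independent if `m` is not near to
`n`, and disjoint or single exceptions otherwise. -/
def S_KS : Prop := ∀ (Ω : Type) [MeasurableSpace Ω] (P : Measure Ω), IsProbabilityMeasure P →
  ∀ (E : ℕ → Set Ω) (f : ℕ → ℕ), (∀ n, MeasurableSet (E n)) →
    (∀ ε : ℝ, 0 < ε → ∃ n₀ : ℕ, ∀ n m : ℕ, n₀ ≤ n → n < m → m ≠ f n →
      P.real (E n ∩ E m) ≤ (1 + ε) * (P.real (E n) * P.real (E m))) →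
    ¬ Summable (fun n => P.real (E n)) → ∀ᵐ ω ∂P, ∃ᶠ n in atTop, ω ∈ E n

/-- Two series. -/
def S_SER : Prop := ∀ ε : ℝ, 0 < ε →
  Summable (fun n : ℕ => 1 / ((n : ℝ) * Real.log n * (Real.log (Real.log n)) ^ (1 + ε))) ∧
  ∀ c : ℝ, 0 < c →
    ¬ Summable (fun n : ℕ => c / ((n : ℝ) * Real.log n * (Real.log (Real.log n)) ^ (1 - ε)))

/-- Upper bound for the gaps. -/
def S_SECUP : Prop := ∀ (Ω : Type) [MeasurableSpace Ω] (P : Measure Ω) (A : ℝ) (U : ℕ → Ω → ℝ),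
  IsUnif P U → 1 < A → ∀ᵐ ω ∂P, ∀ ε : ℝ, 0 < ε → ∃ T : ℝ, ∀ a b : ℝ, IsGap A U ω a b → T ≤ a →
    b - a ≤ Real.log a ^ 2 + (1 + ε) * (Real.log a * l3 a)

/-- Lower bound for the gaps. -/
def S_SECLOW : Prop := ∀ (Ω : Type) [MeasurableSpace Ω] (P : Measure Ω) (A : ℝ) (U : ℕ → Ω → ℝ),
  IsUnif P U → 1 < A → ∀ᵐ ω ∂P, ∀ ε : ℝ, 0 < ε → ∀ T : ℝ, ∃ a b : ℝ, IsGap A U ω a b ∧ T ≤ a ∧
    Real.log a ^ 2 + (1 - ε) * (Real.log a * l3 a) ≤ b - a

theorem final2 (PREC : S_PREC) (LAW : S_LAW) (VOID2 : S_PREC → S_LAW → S_VOID2)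
    (START : S_PREC → S_LAW → S_VOID2 → S_START)
    (PAIR2 : S_PREC → S_LAW → S_VOID2 → S_START → S_PAIR2) (KS : S_KS) (SER : S_SER)
    (SECUP : S_START → S_LAW → S_SER → S_SECUP)
    (SECLOW : S_START → S_PAIR2 → S_LAW → S_KS → S_SER → S_SECLOW) : S_SECUP ∧ S_SECLOW := by
  have h1 := VOID2 PREC LAW
  have h2 := START PREC LAW h1
  exact ⟨SECUP h2 LAW SER, SECLOW h2 (PAIR2 PREC LAW h1 h2) LAW KS SER⟩

end Pool.Agent.U180.DP
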