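import Pool.Agent.U180.DP.Stm

/-! Project DP: the assembly. -/

set_option autoImplicit false

open MeasureTheory ProbabilityTheory Filter Topology

namespace Pool.Agent.U180.DP

theorem final (PI : S_PI) (DENS : S_PI → S_DENS) (MEAN : S_DENS → S_MEAN) (LAW : S_LAW)
    (VOID : S_DENS → S_LAW → S_VOID) (BCN : S_BCN) (CONV : S_VOID → S_LAW → S_CONV)
    (DIV : S_VOID → S_LAW → S_BCN → S_DIV) (ALL : S_CONV → S_DIV → S_ALL)
    (SQ : S_CONV → S_DIV → S_SQ) (POW : S_CONV → S_DIV → S_POW)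
    (UNI : S_MEAN → S_LAW → S_UNI) : S_ALL ∧ S_SQ ∧ S_POW ∧ S_UNI := by
  have h1 := DENS PI
  have h2 := VOID h1 LAW
  have h3 := CONV h2 LAW
  have h4 := DIV h2 LAW BCN
  exact ⟨ALL h3 h4, SQ h3 h4, POW h3 h4, UNI (MEAN h1) LAW⟩

end Pool.Agent.U180.DP
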