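import Pool.Agent.U180.DP.Stm2
import Pool.Agent.Cov.PNT

/-! Project DP: the final theorems from the packages. -/

set_option autoImplicit false

open MeasureTheory ProbabilityTheory Filter Topology

namespace Pool.Agent.U180.DP

lemma not_mem_void {Ω : Type} {A : ℝ} {U : ℕ → Ω → ℝ} {x y : ℝ} {ω : Ω} :
    ω ∉ void A U x y ↔ ∃ p : ℕ, p.Prime ∧ x < dis A U p ω ∧ dis A U p ω ≤ x + y := by
  unfold void
  simp only [Set.mem_ofPred_eq, not_forall, not_not, exists_prop]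

/-- squares -/
theorem sq_final (h : S_SQ) (Ω : Type) [MeasurableSpace Ω] (P : Measure Ω) (A : ℝ)
    (U : ℕ → Ω → ℝ) (hU : IsUnif P U) (hA : 0 < A) : ∀ᵐ ω ∂P,
    (∀ c : ℝ, 2 < c → ∀ᶠ n : ℕ in atTop, ∃ p : ℕ, p.Prime ∧
      (n : ℝ) ^ 2 < dis A U p ω ∧ dis A U p ω ≤ (n : ℝ) ^ 2 + c * Real.log n ^ 2) ∧
    (∀ c : ℝ, c < 2 → ∃ᶠ n : ℕ in atTop, ∀ p : ℕ, p.Prime →
      ¬ ((n : ℝ) ^ 2 < dis A U p ω ∧ dis A U p ω ≤ (n : ℝ) ^ 2 + c * Real.log n ^ 2)) ∧
    ∀ᶠ n : ℕ in atTop, ∃ p : ℕ, p.Prime ∧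
      (n : ℝ) ^ 2 < dis A U p ω ∧ dis A U p ω ≤ (n : ℝ) ^ 2 + Real.logb 2 n ^ 2 := by
  filter_upwards [h Ω P A U hU hA] with ω hω
  have h1 : ∀ c : ℝ, 2 < c → ∀ᶠ n : ℕ in atTop, ∃ p : ℕ, p.Prime ∧
      (n : ℝ) ^ 2 < dis A U p ω ∧ dis A U p ω ≤ (n : ℝ) ^ 2 + c * Real.log n ^ 2 := by
    intro c hc
    filter_upwards [hω.1 c hc] with n hn
    exact not_mem_void.1 hn
  refine ⟨h1, fun c hc => (hω.2 c hc).mono fun n hn => hn, ?_⟩
  have hl0 : 0 < Real.log 2 := Real.log_pos (by norm_num)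
  have hl1 : Real.log 2 < 0.6931471808 := Real.log_two_lt_d9
  have hc : 2 < 1 / Real.log 2 ^ 2 := by
    rw [lt_div_iff₀ (by positivity)]
    nlinarith
  filter_upwards [h1 _ hc] with n hn
  obtain ⟨p, hp, h2, h3⟩ := hn
  refine ⟨p, hp, h2, h3.trans (le_of_eq ?_)⟩
  unfold Real.logb
  rw [div_pow]
  ring

/-- the `n`-th prime, `n ≥ 1` -/
noncomputable def pth (n : ℕ) : ℕ := Nat.nth Nat.Prime (n - 1)

lemma pth_lower (c : ℝ) (hc : c < 1) : ∀ᶠ n : ℕ in atTop, c * (n * Real.log n) ≤ pth n := by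
  have hinf : (Set.ofPred Nat.Prime).Infinite := Nat.infinite_setOfPred_prime
  have hmono : StrictMono (Nat.nth Nat.Prime) := Nat.nth_strictMono hinf
  have ht : Tendsto (fun n : ℕ => (pth n : ℝ)) atTop atTop := by
    have h1 : Tendsto (fun n : ℕ => n - 1) atTop atTop := tendsto_sub_atTop_nat 1
    exact tendsto_natCast_atTop_atTop.comp (hmono.tendsto_atTop.comp h1)
  have hP := Pool.Agent.Cov.PNT.pi_tendsto.comp ht
  have hev : ∀ᶠ n : ℕ in atTop,
      (Nat.primeCounting ⌊(pth n : ℝ)⌋₊ : ℝ) * Real.log (pth n) / pth n < 1 / max c (1 / 2) := by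
    have h2 : (1 : ℝ) < 1 / max c (1 / 2) := by
      rw [lt_div_iff₀ (by positivity)]
      have : max c (1 / 2) < 1 := max_lt hc (by norm_num)
      linarith
    exact hP.eventually (gt_mem_nhds h2) |>.mono fun n hn => hn
  filter_upwards [hev, eventually_ge_atTop 2] with n hn hn2
  have hpr : (pth n).Prime := Nat.prime_nth_prime _
  have hp0 : (0 : ℝ) < pth n := by exact_mod_cast hpr.pos
  have hcount : Nat.primeCounting (pth n) = n := by
    unfold Nat.primeCounting pth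
    rw [Nat.primeCounting']
    rw [Nat.count_nth_succ_of_infinite hinf]
    omega
  rw [Nat.floor_natCast, hcount] at hn
  have hm0 : (0 : ℝ) < max c (1 / 2) := by positivity
  have hnle : (n : ℝ) ≤ pth n := by
    have h3 : n - 1 < Nat.nth Nat.Prime (n - 1) := by
      have := hmono.le_apply (x := n - 1)
      have h4 : Nat.nth Nat.Prime 0 = 2 := Nat.nth_prime_zero_eq_two
      have h5 : ∀ k : ℕ, k + 2 ≤ Nat.nth Nat.Prime k := by
        intro k
        induction k with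
        | zero => rw [h4]
        | succ k ih =>
          have := hmono (Nat.lt_succ_self k)
          simp only [Nat.succ_eq_add_one] at this
          omega
      have := h5 (n - 1)
      omega
    have h6 : n ≤ pth n := by unfold pth; omega
    exact_mod_cast h6
  have hlog : Real.log n ≤ Real.log (pth n) :=
    Real.log_le_log (by exact_mod_cast (by omega : 0 < n)) hnle
  have hlog0 : 0 ≤ Real.log n := Real.log_natCast_nonneg n
  rw [div_lt_div_iff₀ hp0 hm0, one_mul] at hn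
  have h7 : (n : ℝ) * Real.log n ≤ n * Real.log (pth n) :=
    mul_le_mul_of_nonneg_left hlog (by positivity)
  have h8 : c * (n * Real.log n) ≤ max c (1 / 2) * (n * Real.log n) :=
    mul_le_mul_of_nonneg_right (le_max_left _ _) (by positivity)
  have h9 : max c (1 / 2) * (n * Real.log n) ≤ max c (1 / 2) * (n * Real.log (pth n)) :=
    mul_le_mul_of_nonneg_left h7 hm0.le
  nlinarith

/-- powers -/
theorem pow_final (h : S_POW) (Ω : Type) [MeasurableSpace Ω] (P : Measure Ω) (A : ℝ)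
    (U : ℕ → Ω → ℝ) (hU : IsUnif P U) (hA : 0 < A) : ∀ᵐ ω ∂P,
    (∀ b : ℕ, 2 ≤ b →
      (∀ c : ℝ, Real.log b < c → ∀ᶠ n : ℕ in atTop, ∃ p : ℕ, p.Prime ∧
        (b : ℝ) ^ n < dis A U p ω ∧ dis A U p ω ≤ (b : ℝ) ^ n + c * (n * Real.log n)) ∧
      ∀ c : ℝ, c < Real.log b → ∃ᶠ n : ℕ in atTop, ∀ p : ℕ, p.Prime →
        ¬ ((b : ℝ) ^ n < dis A U p ω ∧ dis A U p ω ≤ (b : ℝ) ^ n + c * (n * Real.log n))) ∧
    ∀ᶠ n : ℕ in atTop, ∃ p : ℕ, p.Prime ∧
      (2 : ℝ) ^ n < dis A U p ω ∧ dis A U p ω ≤ (2 : ℝ) ^ n + pth n := by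
  filter_upwards [h Ω P A U hU hA] with ω hω
  have h1 : ∀ b : ℕ, 2 ≤ b → ∀ c : ℝ, Real.log b < c → ∀ᶠ n : ℕ in atTop, ∃ p : ℕ, p.Prime ∧
        (b : ℝ) ^ n < dis A U p ω ∧ dis A U p ω ≤ (b : ℝ) ^ n + c * (n * Real.log n) := by
    intro b hb c hc
    filter_upwards [(hω b hb).1 c hc] with n hn
    exact not_mem_void.1 hn
  refine ⟨fun b hb => ⟨h1 b hb, fun c hc => ((hω b hb).2 c hc).mono fun n hn => hn⟩, ?_⟩
  have hl1 : Real.log 2 < 0.6931471808 := Real.log_two_lt_d9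
  have h2 := h1 2 le_rfl (3 / 4) (by push_cast; linarith)
  filter_upwards [h2, pth_lower (3 / 4) (by norm_num)] with n hn hn2
  obtain ⟨p, hp, h3, h4⟩ := hn
  push_cast at h3 h4
  exact ⟨p, hp, h3, h4.trans (by linarith)⟩

/-- all long intervals -/
theorem uni_final (h : S_UNI) (h' : S_ALL) (Ω : Type) [MeasurableSpace Ω] (P : Measure Ω) (A : ℝ)
    (U : ℕ → Ω → ℝ) (hU : IsUnif P U) (hA : 0 < A) :
    (∀ ε : ℝ, 0 < ε → ∃ K : ℝ, 0 < K ∧ ∀ᵐ ω ∂P, ∀ᶠ x : ℝ in atTop, ∀ y : ℝ,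
      K * Real.log x ^ 2 ≤ y → y ≤ x → |(cnt A U x y ω : ℝ) * Real.log x / y - 1| ≤ ε) ∧
    ∀ᵐ ω ∂P, ∀ c : ℝ, c < 1 → ∃ᶠ x : ℝ in atTop, cnt A U x (c * Real.log x ^ 2) ω = 0 := by
  refine ⟨fun ε hε => h Ω P A U hU hA ε hε, ?_⟩
  filter_upwards [h' Ω P A U hU hA] with ω hω c hc
  refine (hω.2 c hc).mono fun x hx => ?_
  unfold cnt
  have : {p : ℕ | p.Prime ∧ x < dis A U p ω ∧ dis A U p ω ≤ x + c * Real.log x ^ 2} = ∅ := by
    ext p
    simp only [Set.mem_ofPred_eq, Set.mem_empty_iff_false, iff_false]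
    rintro ⟨hp, h1⟩
    exact hx p hp h1
  rw [this, Set.ncard_empty]

lemma amp_nonneg {A : ℝ} {p : ℕ} (_ : p.Prime) : 0 ≤ amp A p := by
  unfold amp
  have : 0 ≤ Real.log p := Real.log_natCast_nonneg p
  positivity

lemma le_dis {Ω : Type} {A : ℝ} {U : ℕ → Ω → ℝ} {ω : Ω} (hU : ∀ p, 0 ≤ U p ω) {p : ℕ}
    (hp : p.Prime) : (p : ℝ) ≤ dis A U p ω := by
  unfold dis
  have := mul_nonneg (amp_nonneg (A := A) hp) (hU p)
  linarith

/-- gaps -/
theorem gap_final (h : S_ALL) (hL : S_LAW) (Ω : Type) [MeasurableSpace Ω] (P : Measure Ω) (A : ℝ)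
    (U : ℕ → Ω → ℝ) (hU : IsUnif P U) (hA : 0 < A) : ∀ᵐ ω ∂P, ∀ ε : ℝ, 0 < ε →
    (∃ T : ℝ, ∀ a b : ℝ, IsGap A U ω a b → T ≤ a → b - a ≤ (1 + ε) * Real.log a ^ 2) ∧
    ∀ T : ℝ, ∃ a b : ℝ, IsGap A U ω a b ∧ T ≤ a ∧ (1 - ε) * Real.log a ^ 2 ≤ b - a := by
  filter_upwards [h Ω P A U hU hA, (hL Ω P A U hU hA).2.2.1] with ω hω hω2 ε hε
  have hU0 : ∀ p, 0 ≤ U p ω := fun p => (hω2 p).1
  constructor
  · obtain ⟨T, hT⟩ := eventually_atTop.1 (hω.1 (1 + ε) (by linarith))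
    refine ⟨T, fun a b hab hTa => ?_⟩
    by_contra hcon
    push Not at hcon
    obtain ⟨p, hp, h1, h2⟩ := not_mem_void.1 (hT a hTa)
    rcases hab.2.2.2 p hp with h3 | h3
    · linarith
    · linarith
  · intro T
    set c : ℝ := max (1 - ε) 0 with hc
    have hc1 : c < 1 := max_lt (by linarith) one_pos
    have hc0 : 0 ≤ c := le_max_right _ _
    obtain ⟨q, hq1, hq⟩ := Nat.exists_infinite_primes (⌈T⌉₊ + 3)
    have hqT : T ≤ dis A U q ω := by
      have h1 := le_dis (A := A) hU0 hq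
      have h2 : (⌈T⌉₊ : ℝ) + 3 ≤ q := by exact_mod_cast hq1
      have h3 := Nat.le_ceil T
      linarith
    have hq3 : (3 : ℝ) ≤ dis A U q ω := by
      have h1 := le_dis (A := A) hU0 hq
      have h2 : (⌈T⌉₊ : ℝ) + 3 ≤ q := by exact_mod_cast hq1
      have h3 : (0 : ℝ) ≤ ⌈T⌉₊ := by positivity
      linarith
    obtain ⟨x, hx, hxq⟩ := ((hω.2 c hc1).and_eventually
      (eventually_ge_atTop (dis A U q ω))).exists
    have hx0 : 0 ≤ x := by linarith
    -- the left end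
    obtain ⟨pa, hpa, hpam⟩ := Finset.exists_max_image
      ((Finset.range (⌊x⌋₊ + 1)).filter fun p : ℕ => p.Prime ∧ dis A U p ω ≤ x)
      (fun p => dis A U p ω) ⟨q, by
        rw [Finset.mem_filter, Finset.mem_range, Nat.lt_succ_iff]
        exact ⟨Nat.le_floor ((le_dis hU0 hq).trans hxq), hq, hxq⟩⟩
    rw [Finset.mem_filter] at hpa
    have hmaxa : ∀ p : ℕ, p.Prime → dis A U p ω ≤ x → dis A U p ω ≤ dis A U pa ω := by
      intro p hp hpx
      apply hpam p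
      rw [Finset.mem_filter, Finset.mem_range, Nat.lt_succ_iff]
      exact ⟨Nat.le_floor ((le_dis hU0 hp).trans hpx), hp, hpx⟩
    -- the right end
    obtain ⟨r, hr1, hr⟩ := Nat.exists_infinite_primes (⌊x⌋₊ + 1)
    have hxr : x < dis A U r ω := by
      have h1 := le_dis (A := A) hU0 hr
      have h2 : (⌊x⌋₊ : ℝ) + 1 ≤ r := by exact_mod_cast hr1
      have h3 := Nat.lt_floor_add_one x
      linarith
    obtain ⟨pb, hpb, hpbm⟩ := Finset.exists_min_image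
      ((Finset.range (⌊dis A U r ω⌋₊ + 1)).filter fun p : ℕ => p.Prime ∧ x < dis A U p ω)
      (fun p => dis A U p ω) ⟨r, by
        rw [Finset.mem_filter, Finset.mem_range, Nat.lt_succ_iff]
        exact ⟨Nat.le_floor (le_dis hU0 hr), hr, hxr⟩⟩
    rw [Finset.mem_filter] at hpb
    have hminb : ∀ p : ℕ, p.Prime → x < dis A U p ω → dis A U pb ω ≤ dis A U p ω := by
      intro p hp hpx
      by_cases hpr : dis A U p ω ≤ dis A U r ω
      · apply hpbm p
        rw [Finset.mem_filter, Finset.mem_range, Nat.lt_succ_iff]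
        exact ⟨Nat.le_floor ((le_dis hU0 hp).trans hpr), hp, hpx⟩
      · push Not at hpr
        refine le_trans (hpbm r ?_) hpr.le
        rw [Finset.mem_filter, Finset.mem_range, Nat.lt_succ_iff]
        exact ⟨Nat.le_floor (le_dis hU0 hr), hr, hxr⟩
    have hay : dis A U pa ω ≤ x := hpa.2.2
    have hby : x + c * Real.log x ^ 2 < dis A U pb ω := by
      by_contra hcon
      push Not at hcon
      exact hx pb hpb.2.1 ⟨hpb.2.2, hcon⟩
    have haq : dis A U q ω ≤ dis A U pa ω := hmaxa q hq hxq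
    refine ⟨dis A U pa ω, dis A U pb ω, ⟨⟨pa, hpa.2.1, rfl⟩, ⟨pb, hpb.2.1, rfl⟩, ?_, ?_⟩, ?_, ?_⟩
    · exact lt_of_le_of_lt hay hpb.2.2
    · intro p hp
      rcases le_or_gt (dis A U p ω) x with h1 | h1
      · exact Or.inl (hmaxa p hp h1)
      · exact Or.inr (hminb p hp h1)
    · exact hqT.trans haq
    · have hla : Real.log (dis A U pa ω) ≤ Real.log x :=
        Real.log_le_log (by linarith) hay
      have hla0 : 0 ≤ Real.log (dis A U pa ω) := Real.log_nonneg (by linarith)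
      have h1 : Real.log (dis A U pa ω) ^ 2 ≤ Real.log x ^ 2 := by gcongr
      have h2 : (1 - ε) * Real.log (dis A U pa ω) ^ 2 ≤ c * Real.log (dis A U pa ω) ^ 2 :=
        mul_le_mul_of_nonneg_right (le_max_left _ _) (by positivity)
      have h3 : c * Real.log (dis A U pa ω) ^ 2 ≤ c * Real.log x ^ 2 :=
        mul_le_mul_of_nonneg_left h1 hc0
      linarith

end Pool.Agent.U180.DP
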