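import Pool.Agent.U180.DP.Asm
import Pool.Agent.U180.DP.R
import Pool.Agent.U638.DP.PI
import Pool.Agent.U890.DP.DENS
import Pool.Agent.U492.DP.MEAN
import Pool.Agent.U27.DP.LAW
import Pool.Agent.U580.DP.VOID
import Pool.Agent.U858.DP.BCN
import Pool.Agent.U612.DP.CONV
import Pool.Agent.U283.DP.DIV
import Pool.Agent.U59.DP.ALL
import Pool.Agent.U399.DP.SQ
import Pool.Agent.U333.DP.POW
import Pool.Agent.U56.DP.UNI

/-! Project DP, part 1: the packages put together. -/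

set_option autoImplicit false

namespace Pool.Agent.U180.DP

theorem all1 : S_ALL ∧ S_SQ ∧ S_POW ∧ S_UNI :=
  final U638.DP.t_PI U890.DP.t_DENS U492.DP.t_MEAN U27.DP.t_LAW U580.DP.t_VOID U858.DP.t_BCN
    U612.DP.t_CONV U283.DP.t_DIV U59.DP.t_ALL U399.DP.t_SQ U333.DP.t_POW U56.DP.t_UNI

end Pool.Agent.U180.DP
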